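import Pool.Agent.W645.WV.Stm
import Pool.Agent.Helper76.HPlanch

set_option autoImplicit false

open MeasureTheory Set Complex FourierTransform
open scoped ENNReal Topology

namespace Pool.Agent.W32.WV

open Pool.Agent.W645.WV

/-- exponential factor -/
noncomputable def A (r y : ℝ) : ℂ := cexp ((y : ℂ) + 2 * (Real.pi : ℂ) * I * ((r * Real.sqrt y : ℝ) : ℂ))

/-- logarithmic derivative of `A` -/
noncomputable def B (r y : ℝ) : ℂ := 1 + (Real.pi : ℂ) * I * (r : ℂ) * (((Real.sqrt y)⁻¹ : ℝ) : ℂ)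

/-- derivative of `B` -/
noncomputable def D (r y : ℝ) : ℂ :=
  (Real.pi : ℂ) * I * (r : ℂ) * ((-(1 / (2 * Real.sqrt y)) / (Real.sqrt y) ^ 2 : ℝ) : ℂ)

theorem hA (r y : ℝ) (hy : 0 < y) : HasDerivAt (A r) (A r y * B r y) y := by
  have h1 : HasDerivAt (fun y : ℝ => r * Real.sqrt y) (r * (1 / (2 * Real.sqrt y))) y :=
    (Real.hasDerivAt_sqrt hy.ne').const_mul r
  have h2 : HasDerivAt (fun y : ℝ => ((r * Real.sqrt y : ℝ) : ℂ))
      ((r * (1 / (2 * Real.sqrt y)) : ℝ) : ℂ) y := h1.ofReal_comp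
  have h3 : HasDerivAt (fun y : ℝ => (y : ℂ)) 1 y := (hasDerivAt_id y).ofReal_comp
  have h4 := (h3.add (h2.const_mul (2 * (Real.pi : ℂ) * I))).cexp
  refine h4.congr_deriv ?_
  have h5 : Real.sqrt y ≠ 0 := (Real.sqrt_pos.mpr hy).ne'
  have h6 : ((Real.sqrt y : ℝ) : ℂ) ≠ 0 := by exact_mod_cast h5
  unfold A B
  simp only [Pi.add_apply]
  congr 1
  push_cast
  field_simp

theorem hB (r y : ℝ) (hy : 0 < y) : HasDerivAt (B r) (D r y) y := by
  have h5 : Real.sqrt y ≠ 0 := (Real.sqrt_pos.mpr hy).ne'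
  have h1 : HasDerivAt (fun y : ℝ => (Real.sqrt y)⁻¹) (-(1 / (2 * Real.sqrt y)) / (Real.sqrt y) ^ 2) y :=
    (Real.hasDerivAt_sqrt hy.ne').inv h5
  have h2 := ((h1.ofReal_comp).const_mul ((Real.pi : ℂ) * I * (r : ℂ))).const_add 1
  exact h2

theorem norm_A (r y : ℝ) : ‖A r y‖ = Real.exp y := by
  unfold A
  rw [Complex.norm_exp]
  congr 1
  simp

theorem sqrt_lo {y : ℝ} (hy : 1 / 8 ≤ y) : (Real.sqrt y)⁻¹ ≤ 3 := by
  have h1 : (1 / 3 : ℝ) ≤ Real.sqrt y := by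
    apply Real.le_sqrt_of_sq_le
    norm_num
    linarith
  calc (Real.sqrt y)⁻¹ ≤ (1 / 3 : ℝ)⁻¹ := inv_anti₀ (by norm_num) h1
    _ = 3 := by norm_num

theorem norm_B {L r y : ℝ} (hL : 1 ≤ L) (hr : |r| ≤ 2 * L) (hy : 1 / 8 ≤ y) : ‖B r y‖ ≤ 25 * L := by
  have h1 := sqrt_lo hy
  have h0 : 0 ≤ (Real.sqrt y)⁻¹ := by positivity
  unfold B
  refine (norm_add_le _ _).trans ?_
  rw [norm_one, norm_mul, norm_mul, norm_mul, Complex.norm_I, Complex.norm_real, Complex.norm_real,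
    Complex.norm_real, Real.norm_of_nonneg Real.pi_pos.le, Real.norm_of_nonneg h0, Real.norm_eq_abs,
    mul_one]
  have h2 : Real.pi * |r| * (Real.sqrt y)⁻¹ ≤ 4 * (2 * L) * 3 := by
    have hp := Real.pi_le_four
    have : Real.pi * |r| ≤ 4 * (2 * L) := mul_le_mul hp hr (abs_nonneg _) (by norm_num)
    exact mul_le_mul this h1 h0 (by positivity)
  linarith

theorem norm_D {L r y : ℝ} (hL : 1 ≤ L) (hr : |r| ≤ 2 * L) (hy : 1 / 8 ≤ y) :
    ‖D r y‖ ≤ 108 * L ^ 2 := by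
  have h1 := sqrt_lo hy
  have h0 : 0 ≤ (Real.sqrt y)⁻¹ := by positivity
  unfold D
  rw [norm_mul, norm_mul, norm_mul, Complex.norm_I, Complex.norm_real, Complex.norm_real,
    Complex.norm_real, Real.norm_of_nonneg Real.pi_pos.le, Real.norm_eq_abs, Real.norm_eq_abs,
    mul_one]
  have e1 : |(-(1 / (2 * Real.sqrt y)) / (Real.sqrt y) ^ 2 : ℝ)| = (1 / 2) * ((Real.sqrt y)⁻¹) ^ 3 := by
    rw [neg_div, abs_neg, abs_of_nonneg (by positivity)]
    have : (1 / (2 * Real.sqrt y)) / (Real.sqrt y) ^ 2 = (1 / 2) * ((Real.sqrt y)⁻¹ * ((Real.sqrt y) ^ 2)⁻¹) := by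
      rw [div_eq_mul_inv, one_div, mul_inv]; ring
    rw [this, ← inv_pow]; ring
  rw [e1]
  have e2 : ((Real.sqrt y)⁻¹) ^ 3 ≤ 3 ^ 3 := pow_le_pow_left₀ h0 h1 3
  have h2 : Real.pi * |r| * ((1 / 2) * ((Real.sqrt y)⁻¹) ^ 3) ≤ 4 * (2 * L) * ((1 / 2) * 3 ^ 3) := by
    have hp := Real.pi_le_four
    have : Real.pi * |r| ≤ 4 * (2 * L) := mul_le_mul hp hr (abs_nonneg _) (by norm_num)
    exact mul_le_mul this (by linarith) (by positivity) (by positivity)
  refine h2.trans ?_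
  nlinarith

section chi
variable {χ : ℝ → ℂ} {N : ℝ}

theorem ev_zero_lo {f : ℝ → ℂ} (h : ∀ y, y < 1 / 8 → f y = 0) {y : ℝ} (hy : y < 1 / 8) :
    f =ᶠ[𝓝 y] fun _ => 0 :=
  Filter.eventuallyEq_of_mem (Iio_mem_nhds hy) fun z hz => h z hz

theorem ev_zero_hi {f : ℝ → ℂ} (h : ∀ y, 8 < y → f y = 0) {y : ℝ} (hy : 8 < y) :
    f =ᶠ[𝓝 y] fun _ => 0 :=
  Filter.eventuallyEq_of_mem (Ioi_mem_nhds hy) fun z hz => h z hz

theorem deriv_lo {f : ℝ → ℂ} (h : ∀ y, y < 1 / 8 → f y = 0) : ∀ y, y < 1 / 8 → deriv f y = 0 := by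
  intro y hy
  rw [(ev_zero_lo h hy).deriv_eq, deriv_const]

theorem deriv_hi {f : ℝ → ℂ} (h : ∀ y, 8 < y → f y = 0) : ∀ y, 8 < y → deriv f y = 0 := by
  intro y hy
  rw [(ev_zero_hi h hy).deriv_eq, deriv_const]

/-- the function -/
noncomputable def P0 (χ : ℝ → ℂ) (r y : ℝ) : ℂ := χ y * A r y

/-- its first derivative -/
noncomputable def P1 (χ : ℝ → ℂ) (r y : ℝ) : ℂ := deriv χ y * A r y + χ y * (A r y * B r y)

/-- its second derivative -/
noncomputable def P2 (χ : ℝ → ℂ) (r y : ℝ) : ℂ :=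
  (deriv (deriv χ) y * A r y + deriv χ y * (A r y * B r y)) +
    (deriv χ y * (A r y * B r y) + χ y * (A r y * B r y * B r y + A r y * D r y))

theorem hP0 (hd : Differentiable ℝ χ) (hlo : ∀ y, y < 1 / 8 → χ y = 0) (r y : ℝ) :
    HasDerivAt (P0 χ r) (P1 χ r y) y := by
  by_cases hy : 0 < y
  · exact (hd y).hasDerivAt.mul (hA r y hy)
  · have hy' : y < 1 / 8 := by linarith
    have h1 : P0 χ r =ᶠ[𝓝 y] fun _ => 0 := ev_zero_lo (fun z hz => by
      unfold P0; rw [hlo z hz, zero_mul]) hy'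
    have h2 : P1 χ r y = 0 := by
      unfold P1; rw [hlo y hy', deriv_lo hlo y hy']; simp
    rw [h2]
    exact (hasDerivAt_const y (0 : ℂ)).congr_of_eventuallyEq h1

theorem hP1 (hd : Differentiable ℝ χ) (hd2 : Differentiable ℝ (deriv χ))
    (hlo : ∀ y, y < 1 / 8 → χ y = 0) (r y : ℝ) :
    HasDerivAt (P1 χ r) (P2 χ r y) y := by
  have hlo1 := deriv_lo hlo
  by_cases hy : 0 < y
  · exact ((hd2 y).hasDerivAt.mul (hA r y hy)).add
      ((hd y).hasDerivAt.mul ((hA r y hy).mul (hB r y hy)))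
  · have hy' : y < 1 / 8 := by linarith
    have h1 : P1 χ r =ᶠ[𝓝 y] fun _ => 0 := ev_zero_lo (fun z hz => by
      unfold P1; rw [hlo z hz, hlo1 z hz]; simp) hy'
    have h2 : P2 χ r y = 0 := by
      unfold P2; rw [hlo y hy', hlo1 y hy', deriv_lo hlo1 y hy']; simp
    rw [h2]
    exact (hasDerivAt_const y (0 : ℂ)).congr_of_eventuallyEq h1

theorem meas_A (r : ℝ) : Measurable (A r) := by
  unfold A; fun_prop

theorem meas_B (r : ℝ) : Measurable (B r) := by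
  unfold B; fun_prop

theorem meas_D (r : ℝ) : Measurable (D r) := by
  unfold D; fun_prop

/-- bounded measurable functions supported in `[1/8, 8]` -/
structure Bs (f : ℝ → ℂ) (K : ℝ) : Prop where
  meas : Measurable f
  bd : ∀ y, ‖f y‖ ≤ K
  supp : ∀ y, f y ≠ 0 → 1 / 8 ≤ y ∧ y ≤ 8

theorem Bs.eq_ind {f : ℝ → ℂ} {K : ℝ} (h : Bs f K) : f = (Icc (1 / 8 : ℝ) 8).indicator f := by
  ext y
  by_cases hy : y ∈ Icc (1 / 8 : ℝ) 8
  · rw [indicator_of_mem hy]
  · rw [indicator_of_notMem hy]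
    by_contra hne
    exact hy (h.supp y hne)

theorem Bs.memLp {f : ℝ → ℂ} {K : ℝ} (h : Bs f K) (p : ℝ≥0∞) : MemLp f p volume := by
  rw [h.eq_ind, memLp_indicator_iff_restrict measurableSet_Icc]
  exact MemLp.of_bound h.meas.aestronglyMeasurable K (Filter.Eventually.of_forall h.bd)

theorem Bs.int {f : ℝ → ℂ} {K : ℝ} (h : Bs f K) : Integrable f := memLp_one_iff_integrable.mp (h.memLp 1)

theorem Bs.sq {f : ℝ → ℂ} {K : ℝ} (h : Bs f K) (hK : 0 ≤ K) :
    ∫⁻ y, ‖f y‖ₑ ^ 2 ≤ ENNReal.ofReal (8 * K ^ 2) := by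
  have h1 : ∀ y, ‖f y‖ₑ ^ 2 ≤ (Icc (1 / 8 : ℝ) 8).indicator (fun _ => ENNReal.ofReal (K ^ 2)) y := by
    intro y
    by_cases hy : y ∈ Icc (1 / 8 : ℝ) 8
    · rw [indicator_of_mem hy, ENNReal.ofReal_pow hK]
      have : ‖f y‖ₑ ≤ ENNReal.ofReal K := by
        rw [← ofReal_norm]
        exact ENNReal.ofReal_le_ofReal (h.bd y)
      exact pow_le_pow_left' this 2
    · rw [indicator_of_notMem hy, h.eq_ind, indicator_of_notMem hy]
      simp
  refine (lintegral_mono h1).trans ?_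
  rw [lintegral_indicator measurableSet_Icc, lintegral_const, Measure.restrict_apply_univ,
    Real.volume_Icc, ← ENNReal.ofReal_mul (by positivity)]
  apply ENNReal.ofReal_le_ofReal
  nlinarith [sq_nonneg K]

end chi

/-- all bounds -/
theorem bounds {χ : ℝ → ℂ} {N L r : ℝ} (hL : 1 ≤ L) (hr : |r| ≤ 2 * L) (hN : 0 < N)
    (hχ : Cls (1 / 8) 8 N 2 χ) :
    Bs (P0 χ r) (N * Real.exp 8) ∧ Bs (P1 χ r) (N * Real.exp 8 * (26 * L)) ∧
      Bs (P2 χ r) (N * Real.exp 8 * (800 * L ^ 2)) ∧ (∀ y, HasDerivAt (P0 χ r) (P1 χ r y) y) ∧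
      (∀ y, HasDerivAt (P1 χ r) (P2 χ r y) y) := by
  obtain ⟨hsm, hsupp, hder⟩ := hχ
  have hlo : ∀ y, y < 1 / 8 → χ y = 0 := by
    intro y hy
    by_contra hne
    have := (hsupp y hne).1
    linarith
  have hhi : ∀ y, 8 < y → χ y = 0 := by
    intro y hy
    by_contra hne
    have := (hsupp y hne).2
    linarith
  have hd : Differentiable ℝ χ := hsm.differentiable (by simp)
  have hsm1 : ContDiff ℝ (⊤ : ℕ∞) (deriv χ) := (contDiff_infty_iff_deriv.mp hsm).2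
  have hd2 : Differentiable ℝ (deriv χ) := hsm1.differentiable (by simp)
  have hsm2 : ContDiff ℝ (⊤ : ℕ∞) (deriv (deriv χ)) := (contDiff_infty_iff_deriv.mp hsm1).2
  have hlo1 := deriv_lo hlo
  have hhi1 := deriv_hi hhi
  have hlo2 := deriv_lo hlo1
  have hhi2 := deriv_hi hhi1
  have b0 : ∀ y, ‖χ y‖ ≤ N := fun y => by
    have := hder 0 (by norm_num) y
    rwa [iteratedDeriv_zero] at this
  have b1 : ∀ y, ‖deriv χ y‖ ≤ N := fun y => by
    have := hder 1 (by norm_num) y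
    rwa [iteratedDeriv_one] at this
  have b2 : ∀ y, ‖deriv (deriv χ) y‖ ≤ N := fun y => by
    have := hder 2 (by norm_num) y
    rwa [iteratedDeriv_succ, iteratedDeriv_one] at this
  have m0 : Measurable χ := hsm.continuous.measurable
  have m1 : Measurable (deriv χ) := hsm1.continuous.measurable
  have m2 : Measurable (deriv (deriv χ)) := hsm2.continuous.measurable
  have hE : (0 : ℝ) < Real.exp 8 := Real.exp_pos 8
  have key : ∀ (f : ℝ → ℂ) (K : ℝ), 0 ≤ K → Measurable f → (∀ y, y < 1 / 8 → f y = 0) →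
      (∀ y, 8 < y → f y = 0) → (∀ y, 1 / 8 ≤ y → y ≤ 8 → ‖f y‖ ≤ K) → Bs f K := by
    intro f K hK hf h1 h2 h3
    refine ⟨hf, fun y => ?_, fun y hy => ⟨?_, ?_⟩⟩
    · rcases lt_or_ge y (1 / 8) with h | h
      · rw [h1 y h, norm_zero]; exact hK
      · rcases lt_or_ge 8 y with h' | h'
        · rw [h2 y h', norm_zero]; exact hK
        · exact h3 y h h'
    · by_contra hc
      exact hy (h1 y (by linarith))
    · by_contra hc
      exact hy (h2 y (by linarith))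
  have hAb : ∀ y, y ≤ 8 → ‖A r y‖ ≤ Real.exp 8 := by
    intro y hy
    rw [norm_A]
    exact Real.exp_le_exp.mpr hy
  have hmul : ∀ (a b c : ℂ) (x y z : ℝ), ‖a‖ ≤ x → ‖b‖ ≤ y → ‖c‖ ≤ z → 0 ≤ x → 0 ≤ y →
      ‖a * (b * c)‖ ≤ x * (y * z) := by
    intro a b c x y z ha hb hc hx hy
    rw [norm_mul, norm_mul]
    exact mul_le_mul ha (mul_le_mul hb hc (norm_nonneg _) hy) (by positivity) hx
  have hmul2 : ∀ (a b : ℂ) (x y : ℝ), ‖a‖ ≤ x → ‖b‖ ≤ y → 0 ≤ x → ‖a * b‖ ≤ x * y := by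
    intro a b x y ha hb hx
    rw [norm_mul]
    exact mul_le_mul ha hb (norm_nonneg _) hx
  refine ⟨?_, ?_, ?_, hP0 hd hlo r, hP1 hd hd2 hlo r⟩
  · refine key _ _ (by positivity) (m0.mul (meas_A r)) (fun y hy => ?_) (fun y hy => ?_)
      (fun y h1 h2 => ?_)
    · unfold P0; rw [hlo y hy, zero_mul]
    · unfold P0; rw [hhi y hy, zero_mul]
    · exact hmul2 _ _ _ _ (b0 y) (hAb y h2) hN.le
  · refine key _ _ (by positivity) ((m1.mul (meas_A r)).add (m0.mul ((meas_A r).mul (meas_B r))))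
      (fun y hy => ?_) (fun y hy => ?_) (fun y h1 h2 => ?_)
    · unfold P1; rw [hlo y hy, hlo1 y hy]; simp
    · unfold P1; rw [hhi y hy, hhi1 y hy]; simp
    · unfold P1
      refine (norm_add_le _ _).trans ?_
      have e1 := hmul2 _ _ _ _ (b1 y) (hAb y h2) hN.le
      have e2 := hmul _ _ _ _ _ _ (b0 y) (hAb y h2) (norm_B hL hr h1) hN.le hE.le
      have e3 : N * Real.exp 8 * 1 ≤ N * Real.exp 8 * L := mul_le_mul_of_nonneg_left hL (by positivity)
      nlinarith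
  · refine key _ _ (by positivity)
      (((m2.mul (meas_A r)).add (m1.mul ((meas_A r).mul (meas_B r)))).add
        ((m1.mul ((meas_A r).mul (meas_B r))).add
          (m0.mul ((((meas_A r).mul (meas_B r)).mul (meas_B r)).add ((meas_A r).mul (meas_D r))))))
      (fun y hy => ?_) (fun y hy => ?_) (fun y h1 h2 => ?_)
    · unfold P2; rw [hlo y hy, hlo1 y hy, hlo2 y hy]; simp
    · unfold P2; rw [hhi y hy, hhi1 y hy, hhi2 y hy]; simp
    · unfold P2
      have hBb := norm_B hL hr h1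
      have hDb := norm_D hL hr h1
      have e1 := hmul2 _ _ _ _ (b2 y) (hAb y h2) hN.le
      have e2 := hmul _ _ _ _ _ _ (b1 y) (hAb y h2) hBb hN.le hE.le
      have e3 : ‖A r y * B r y * B r y + A r y * D r y‖ ≤
          Real.exp 8 * (25 * L) * (25 * L) + Real.exp 8 * (108 * L ^ 2) := by
        refine (norm_add_le _ _).trans (add_le_add ?_ ?_)
        · exact hmul2 _ _ _ _ (hmul2 _ _ _ _ (hAb y h2) hBb hE.le) hBb (by positivity)
        · exact hmul2 _ _ _ _ (hAb y h2) hDb hE.le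
      have e4 := hmul2 _ _ _ _ (b0 y) e3 hN.le
      have hNE : 0 < N * Real.exp 8 := by positivity
      have hLL : L ≤ L ^ 2 := by nlinarith
      have h1L : (1 : ℝ) ≤ L ^ 2 := by nlinarith
      have f1 : N * Real.exp 8 * 1 ≤ N * Real.exp 8 * L ^ 2 := mul_le_mul_of_nonneg_left h1L hNE.le
      have f2 : N * Real.exp 8 * L ≤ N * Real.exp 8 * L ^ 2 := mul_le_mul_of_nonneg_left hLL hNE.le
      refine (norm_add_le _ _).trans ?_
      have g1 := norm_add_le (deriv (deriv χ) y * A r y) (deriv χ y * (A r y * B r y))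
      have g2 := norm_add_le (deriv χ y * (A r y * B r y))
        (χ y * (A r y * B r y * B r y + A r y * D r y))
      nlinarith

theorem MK_eq (χ : ℝ → ℂ) (r s : ℝ) : MK (OS χ r) s = 𝓕 (P0 χ r) (-s) := by
  rw [Real.fourier_real_eq_integral_exp_smul]
  unfold MK
  refine integral_congr_ae (Filter.Eventually.of_forall fun y => ?_)
  simp only [smul_eq_mul]
  unfold OS P0 A
  have e1 : cexp (((-2 * Real.pi * y * (-s) : ℝ) : ℂ) * I) =
      cexp (2 * (Real.pi : ℂ) * I * ((s * y : ℝ) : ℂ)) := by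
    congr 1; push_cast; ring
  rw [e1, Complex.exp_add]
  ring

theorem int_exp {f : ℝ → ℂ} (hf : Integrable f) (x : ℝ) :
    Integrable (fun v : ℝ => cexp (((-2 * Real.pi * v * x : ℝ) : ℂ) * I) • f v) := by
  have hc : Continuous (fun v : ℝ => cexp (((-2 * Real.pi * v * x : ℝ) : ℂ) * I)) := by fun_prop
  refine Integrable.mono' hf.norm ?_ (Filter.Eventually.of_forall fun v => ?_)
  · exact hc.aestronglyMeasurable.smul hf.1
  · rw [norm_smul, Complex.norm_exp_ofReal_mul_I, one_mul]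

theorem fourier_two {χ : ℝ → ℂ} {r K0 K1 K2 : ℝ} (h0 : Bs (P0 χ r) K0) (h1 : Bs (P1 χ r) K1)
    (h2 : Bs (P2 χ r) K2) (d0 : ∀ y, HasDerivAt (P0 χ r) (P1 χ r y) y)
    (d1 : ∀ y, HasDerivAt (P1 χ r) (P2 χ r y) y) (c : ℂ) (x : ℝ) :
    𝓕 (fun y => P0 χ r y - c * P2 χ r y) x =
      (1 - c * (2 * Real.pi * I * x) ^ 2) * 𝓕 (P0 χ r) x := by
  have hd0 : deriv (P0 χ r) = P1 χ r := funext fun y => (d0 y).deriv
  have hd1 : deriv (P1 χ r) = P2 χ r := funext fun y => (d1 y).deriv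
  have e1 := Real.fourier_deriv h0.int (fun y => (d0 y).differentiableAt) (by rw [hd0]; exact h1.int)
  have e2 := Real.fourier_deriv h1.int (fun y => (d1 y).differentiableAt) (by rw [hd1]; exact h2.int)
  rw [hd0] at e1
  rw [hd1] at e2
  have e1x := congrFun e1 x
  have e2x := congrFun e2 x
  simp only [smul_eq_mul] at e1x e2x
  have e3 : 𝓕 (fun y => P0 χ r y - c * P2 χ r y) x = 𝓕 (P0 χ r) x - c * 𝓕 (P2 χ r) x := by
    rw [Real.fourier_real_eq_integral_exp_smul, Real.fourier_real_eq_integral_exp_smul,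
      Real.fourier_real_eq_integral_exp_smul, ← integral_const_mul, ← integral_sub]
    · refine integral_congr_ae (Filter.Eventually.of_forall fun y => ?_)
      simp only [smul_eq_mul]
      ring
    · exact int_exp h0.int x
    · exact (int_exp h2.int x).const_mul c
  rw [e3, e2x, e1x]
  ring

theorem am_gm {lam a b : ℝ} (hl : 0 < lam) : a * b ≤ lam / 2 * a ^ 2 + (2 * lam)⁻¹ * b ^ 2 := by
  have h1 : lam / 2 * a ^ 2 + (2 * lam)⁻¹ * b ^ 2 - a * b = (2 * lam)⁻¹ * (lam * a - b) ^ 2 := by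
    field_simp
    ring
  have h2 : 0 ≤ (2 * lam)⁻¹ * (lam * a - b) ^ 2 := by positivity
  linarith

theorem cont_MK {χ : ℝ → ℂ} {r K : ℝ} (h0 : Bs (P0 χ r) K) : Continuous (MK (OS χ r)) := by
  have h1 : Continuous (𝓕 (P0 χ r)) :=
    VectorFourier.fourierIntegral_continuous Real.continuous_fourierChar
      (innerSL ℝ).continuous₂ h0.int
  have h2 : MK (OS χ r) = fun s => 𝓕 (P0 χ r) (-s) := funext fun s => MK_eq χ r s
  rw [h2]
  exact h1.comp continuous_neg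

theorem int_w (L : ℝ) (hL : 1 ≤ L) : ∫⁻ s : ℝ, ENNReal.ofReal ((1 + (s / L) ^ 2)⁻¹) =
    ENNReal.ofReal (L * Real.pi) := by
  have hL0 : L ≠ 0 := by linarith
  have h1 : Integrable (fun s : ℝ => (1 + (s / L) ^ 2)⁻¹) := integrable_inv_one_add_sq.comp_div hL0
  rw [← ofReal_integral_eq_lintegral_ofReal h1 (Filter.Eventually.of_forall fun s => by positivity)]
  have h2 := Measure.integral_comp_div (fun x : ℝ => (1 + x ^ 2)⁻¹) L
  rw [h2, integral_univ_inv_one_add_sq, abs_of_nonneg (by linarith), smul_eq_mul]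

theorem ka : S_KA := by
  refine ⟨4 * 801 ^ 2 * Real.exp 8 ^ 2 + 2, by positivity, ?_⟩
  intro L hL N hN χ hχ σ hσ t ht
  have hr : |σ * t * L| ≤ 2 * L := by
    have h1 : |σ| = 1 := by rcases hσ with rfl | rfl <;> norm_num
    rw [abs_mul, abs_mul, h1, one_mul, abs_of_nonneg (by linarith [ht.1]), abs_of_nonneg (by linarith)]
    exact mul_le_mul_of_nonneg_right ht.2 (by linarith)
  set r := σ * t * L with hr_def
  obtain ⟨h0, h1, h2, d0, d1⟩ := bounds hL hr hN hχ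
  refine ⟨cont_MK h0, ?_⟩
  have hL0 : (0 : ℝ) < L := by linarith
  have hpi := Real.pi_pos
  set c : ℝ := ((2 * Real.pi * L) ^ 2)⁻¹ with hc
  have hc0 : 0 < c := by positivity
  -- the function with good Fourier transform
  set Φ : ℝ → ℂ := fun y => P0 χ r y - (c : ℂ) * P2 χ r y with hΦ
  have hE : (0 : ℝ) < Real.exp 8 := Real.exp_pos 8
  have hcL : c * (800 * L ^ 2) ≤ 800 := by
    have : c * (800 * L ^ 2) = 800 / (2 * Real.pi) ^ 2 := by
      rw [hc]; field_simp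
    rw [this, div_le_iff₀ (by positivity)]
    nlinarith [Real.pi_gt_three]
  have hΦb : Bs Φ (801 * (N * Real.exp 8)) := by
    refine ⟨h0.meas.sub (h2.meas.const_mul _), fun y => ?_, fun y hy => ?_⟩
    · refine (norm_sub_le _ _).trans ?_
      rw [norm_mul, Complex.norm_real, Real.norm_of_nonneg hc0.le]
      have e1 := h0.bd y
      have e2 := mul_le_mul_of_nonneg_left (h2.bd y) hc0.le
      have e3 : c * (N * Real.exp 8 * (800 * L ^ 2)) = N * Real.exp 8 * (c * (800 * L ^ 2)) := by ring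
      rw [e3] at e2
      have e4 : N * Real.exp 8 * (c * (800 * L ^ 2)) ≤ N * Real.exp 8 * 800 :=
        mul_le_mul_of_nonneg_left hcL (by positivity)
      linarith
    · by_cases hy0 : P0 χ r y = 0
      · apply h2.supp
        intro hy2
        apply hy
        simp only [hΦ]
        rw [hy0, hy2]; simp
      · exact h0.supp y hy0
  have hF : ∀ x : ℝ, 𝓕 Φ x = (((1 + (x / L) ^ 2 : ℝ)) : ℂ) * 𝓕 (P0 χ r) x := by
    intro x
    rw [hΦ, fourier_two h0 h1 h2 d0 d1]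
    congr 1
    rw [hc]
    push_cast
    have hLc : (L : ℂ) ≠ 0 := by exact_mod_cast hL0.ne'
    have hpc : (Real.pi : ℂ) ≠ 0 := by exact_mod_cast hpi.ne'
    have e5 : (2 * (Real.pi : ℂ) * I * x) ^ 2 = -(2 * (Real.pi : ℂ) * x) ^ 2 := by
      rw [mul_pow, mul_pow, Complex.I_sq, mul_pow]; ring
    rw [e5]
    field_simp
    ring
  set lam : ℝ := Real.sqrt L / N with hlam
  have hsL : 0 < Real.sqrt L := Real.sqrt_pos.mpr hL0
  have hl : 0 < lam := by positivity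
  have hpt : ∀ s : ℝ, ENNReal.ofReal (Real.sqrt (1 + (s / L) ^ 2)) * ‖MK (OS χ r) s‖ₑ ≤
      ENNReal.ofReal (lam / 2) * ‖𝓕 Φ (-s)‖ₑ ^ 2 +
        ENNReal.ofReal ((2 * lam)⁻¹) * ENNReal.ofReal ((1 + (s / L) ^ 2)⁻¹) := by
    intro s
    have hw : (0 : ℝ) < 1 + (s / L) ^ 2 := by positivity
    have hsq : 0 < Real.sqrt (1 + (s / L) ^ 2) := Real.sqrt_pos.mpr hw
    rw [← ofReal_norm, ← ofReal_norm, ← ENNReal.ofReal_pow (norm_nonneg _),
      ← ENNReal.ofReal_mul (by positivity), ← ENNReal.ofReal_mul (by positivity),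
      ← ENNReal.ofReal_mul (by positivity), ← ENNReal.ofReal_add (by positivity) (by positivity)]
    apply ENNReal.ofReal_le_ofReal
    have e1 := am_gm (a := ‖𝓕 Φ (-s)‖) (b := (Real.sqrt (1 + (s / L) ^ 2))⁻¹) hl
    have e2 : ((Real.sqrt (1 + (s / L) ^ 2))⁻¹) ^ 2 = (1 + (s / L) ^ 2)⁻¹ := by
      rw [inv_pow, Real.sq_sqrt hw.le]
    have e3 : ‖𝓕 Φ (-s)‖ * (Real.sqrt (1 + (s / L) ^ 2))⁻¹ =
        Real.sqrt (1 + (s / L) ^ 2) * ‖MK (OS χ r) s‖ := by
      rw [hF, MK_eq, norm_mul, Complex.norm_real, neg_div, neg_sq, Real.norm_of_nonneg hw.le]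
      have e4 : (1 + (s / L) ^ 2) = Real.sqrt (1 + (s / L) ^ 2) * Real.sqrt (1 + (s / L) ^ 2) :=
        (Real.mul_self_sqrt hw.le).symm
      calc (1 + (s / L) ^ 2) * ‖𝓕 (P0 χ r) (-s)‖ * (Real.sqrt (1 + (s / L) ^ 2))⁻¹
          = (Real.sqrt (1 + (s / L) ^ 2) * Real.sqrt (1 + (s / L) ^ 2)) * ‖𝓕 (P0 χ r) (-s)‖ *
            (Real.sqrt (1 + (s / L) ^ 2))⁻¹ := by rw [← e4]
        _ = Real.sqrt (1 + (s / L) ^ 2) * ‖𝓕 (P0 χ r) (-s)‖ := by
          field_simp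
    rw [e2, e3] at e1
    exact e1
  refine (lintegral_mono hpt).trans ?_
  have hcF : Continuous (𝓕 Φ) := VectorFourier.fourierIntegral_continuous Real.continuous_fourierChar
      (innerSL ℝ).continuous₂ hΦb.int
  have hm1 : Measurable (fun s : ℝ => ‖𝓕 Φ (-s)‖ₑ ^ 2) :=
    ((hcF.comp continuous_neg).measurable.enorm).pow_const 2
  rw [lintegral_add_left (hm1.const_mul _), lintegral_const_mul _ hm1, lintegral_const_mul _ (by fun_prop),
    int_w L hL]
  have hneg : ∫⁻ s : ℝ, ‖𝓕 Φ (-s)‖ₑ ^ 2 = ∫⁻ s : ℝ, ‖𝓕 Φ s‖ₑ ^ 2 := by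
    have hm : Measurable (fun s : ℝ => ‖𝓕 Φ s‖ₑ ^ 2) := (hcF.measurable.enorm).pow_const 2
    exact (Measure.measurePreserving_neg (volume : Measure ℝ)).lintegral_comp hm
  rw [hneg, Pool.Agent.Helper76.NormalHP.plancherel_lintegral Φ hΦb.int (hΦb.memLp 2)]
  have hsq := hΦb.sq (by positivity)
  calc (ENNReal.ofReal (lam / 2) * ∫⁻ t, ‖Φ t‖ₑ ^ 2) + ENNReal.ofReal ((2 * lam)⁻¹) *
        ENNReal.ofReal (L * Real.pi)
      ≤ ENNReal.ofReal (lam / 2) * ENNReal.ofReal (8 * (801 * (N * Real.exp 8)) ^ 2) +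
        ENNReal.ofReal ((2 * lam)⁻¹) * ENNReal.ofReal (L * Real.pi) := by gcongr
    _ = ENNReal.ofReal (lam / 2 * (8 * (801 * (N * Real.exp 8)) ^ 2) + (2 * lam)⁻¹ * (L * Real.pi)) := by
      rw [← ENNReal.ofReal_mul (by positivity), ← ENNReal.ofReal_mul (by positivity),
        ← ENNReal.ofReal_add (by positivity) (by positivity)]
    _ ≤ ENNReal.ofReal ((4 * 801 ^ 2 * Real.exp 8 ^ 2 + 2) * N * Real.sqrt L) := by
      apply ENNReal.ofReal_le_ofReal
      have hs2 : Real.sqrt L * Real.sqrt L = L := Real.mul_self_sqrt hL0.le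
      have e1 : lam / 2 * (8 * (801 * (N * Real.exp 8)) ^ 2) =
          4 * 801 ^ 2 * Real.exp 8 ^ 2 * N * Real.sqrt L := by
        rw [hlam]; field_simp; ring
      have e2 : (2 * lam)⁻¹ * (L * Real.pi) = (Real.pi / 2) * N * Real.sqrt L := by
        rw [hlam]
        have : (2 * (Real.sqrt L / N))⁻¹ * ((Real.sqrt L * Real.sqrt L) * Real.pi) =
          (Real.pi / 2) * N * Real.sqrt L := by
          field_simp
        rwa [hs2] at this
      rw [e1, e2]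
      have hp4 := Real.pi_le_four
      have e3 : (Real.pi / 2) * N * Real.sqrt L ≤ 2 * N * Real.sqrt L := by
        have : 0 ≤ N * Real.sqrt L := by positivity
        nlinarith
      linarith

end Pool.Agent.W32.WV
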